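import Pool.Agent.H87.EBK.Stmts

namespace Pool.EBK

/-- Row SUB of the board `ebk`. -/
theorem sub : SUB := by
  intro V G z h
  obtain ⟨B, hc, hd, he⟩ := h
  refine ⟨fun i => Subtype.val '' (B i), fun i => ?_, fun i j hij => ?_, fun i j hij => ?_⟩
  · let φ : ((G.induce {u : V | u ≠ z}).induce (B i)) →g (G.induce (Subtype.val '' (B i))) :=
      { toFun := fun u => ⟨u.1.1, ⟨u.1, u.2, rfl⟩⟩
        map_rel' := fun {a b} h => h }
    refine (hc i).map φ ?_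
    rintro ⟨u, w, hw, rfl⟩
    exact ⟨⟨w, hw⟩, rfl⟩
  · exact (Set.disjoint_image_iff Subtype.val_injective).2 (hd i j hij)
  · obtain ⟨u, hu, w, hw, h⟩ := he i j hij
    exact ⟨u.1, ⟨u, hu, rfl⟩, w.1, ⟨w, hw, rfl⟩, h⟩

end Pool.EBK
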